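import Mathlib

set_option autoImplicit false
set_option linter.unusedSectionVars false

open Set Filter Topology

namespace Pool.Agent.Results.MP_ac6992_gt.Disproof

/-- `φ` is a homogeneous quasimorphism: it has bounded defect and `φ (g ^ n) = n φ g` for all
`g : H` and `n : ℤ`. -/
def IsHomogQM {H : Type} [Group H] (φ : H → ℝ) : Prop :=
  (∃ D : ℝ, ∀ g h : H, |φ (g * h) - φ g - φ h| ≤ D) ∧ ∀ (g : H) (n : ℤ), φ (g ^ n) = n * φ g

theorem IsHomogQM.zero {H : Type} [Group H] : IsHomogQM (0 : H → ℝ) :=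
  ⟨⟨0, by simp⟩, by simp⟩

theorem IsHomogQM.add {H : Type} [Group H] {φ ψ : H → ℝ} (hφ : IsHomogQM φ) (hψ : IsHomogQM ψ) :
    IsHomogQM (φ + ψ) := by
  obtain ⟨⟨D, hD⟩, h1⟩ := hφ
  obtain ⟨⟨D', hD'⟩, h2⟩ := hψ
  refine ⟨⟨D + D', fun g h => ?_⟩, fun g n => ?_⟩
  · have e : (φ + ψ) (g * h) - (φ + ψ) g - (φ + ψ) h =
      (φ (g * h) - φ g - φ h) + (ψ (g * h) - ψ g - ψ h) := by
      simp only [Pi.add_apply]; ring
    rw [e]
    exact (abs_add_le _ _).trans (add_le_add (hD g h) (hD' g h))
  · simp only [Pi.add_apply, h1, h2]; ring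

theorem IsHomogQM.smul {H : Type} [Group H] (r : ℝ) {φ : H → ℝ} (hφ : IsHomogQM φ) :
    IsHomogQM (r • φ) := by
  obtain ⟨⟨D, hD⟩, h1⟩ := hφ
  refine ⟨⟨|r| * D, fun g h => ?_⟩, fun g n => ?_⟩
  · have e : (r • φ) (g * h) - (r • φ) g - (r • φ) h = r * (φ (g * h) - φ g - φ h) := by
      simp only [Pi.smul_apply, smul_eq_mul]; ring
    rw [e, abs_mul]
    exact mul_le_mul_of_nonneg_left (hD g h) (abs_nonneg r)
  · simp only [Pi.smul_apply, smul_eq_mul, h1]; ring

/-- The real vector space `Q(H)` of homogeneous quasimorphisms of `H`. -/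
def Q (H : Type) [Group H] : Submodule ℝ (H → ℝ) where
  carrier := {φ | IsHomogQM φ}
  zero_mem' := IsHomogQM.zero
  add_mem' := IsHomogQM.add
  smul_mem' := IsHomogQM.smul

/-- `φ` is additive, i.e. a homomorphism to `ℝ`. -/
def IsAdditive {H : Type} [Group H] (φ : H → ℝ) : Prop := ∀ g h : H, φ (g * h) = φ g + φ h

theorem IsAdditive.zero {H : Type} [Group H] : IsAdditive (0 : H → ℝ) := by
  intro g h; simp

theorem IsAdditive.add {H : Type} [Group H] {φ ψ : H → ℝ} (h1 : IsAdditive φ)
    (h2 : IsAdditive ψ) : IsAdditive (φ + ψ) := by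
  intro g h
  simp only [Pi.add_apply]
  rw [h1 g h, h2 g h]; ring

theorem IsAdditive.smul {H : Type} [Group H] (r : ℝ) {φ : H → ℝ} (h1 : IsAdditive φ) :
    IsAdditive (r • φ) := by
  intro g h
  simp only [Pi.smul_apply, smul_eq_mul]
  rw [h1 g h]; ring

/-- The subspace `Hom(H, ℝ)` of `Q(H)`. -/
def HomQ (H : Type) [Group H] : Submodule ℝ (Q H) where
  carrier := {φ | IsAdditive φ.1}
  zero_mem' := IsAdditive.zero
  add_mem' := IsAdditive.add
  smul_mem' r _ := IsAdditive.smul r

/-- The quotient space `Q(H)/Hom(H, ℝ)`. -/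
def Qtilde (H : Type) [Group H] : Type := (Q H) ⧸ (HomQ H)

noncomputable instance acgQtilde (H : Type) [Group H] : AddCommGroup (Qtilde H) :=
  Submodule.Quotient.addCommGroup (HomQ H)

noncomputable instance modQtilde (H : Type) [Group H] : Module ℝ (Qtilde H) :=
  Submodule.Quotient.module (HomQ H)

/-- Amenability of the discrete group `H`: there is a finitely additive probability measure,
defined on all subsets of `H`, which is invariant under left translations. -/
def IsAmenable (H : Type) [Group H] : Prop :=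
  ∃ μ : Set H → ℝ, (∀ A, 0 ≤ μ A) ∧ μ Set.univ = 1 ∧
    (∀ A B : Set H, Disjoint A B → μ (A ∪ B) = μ A + μ B) ∧
    ∀ (g : H) (A : Set H), μ ((fun x => g * x) '' A) = μ A

section QM

variable {G : Type} [Group G] {φ : G → ℝ} {D : ℝ}

theorem zero_of_nat_mul_le {a C : ℝ} (h : ∀ n : ℕ, (n : ℝ) * |a| ≤ C) : a = 0 := by
  by_contra ha
  have hpos : 0 < |a| := abs_pos.mpr ha
  obtain ⟨n, hn⟩ := exists_nat_gt (C / |a|)
  have h1 := h n
  rw [div_lt_iff₀ hpos] at hn
  linarith

theorem phi_inv (hh : ∀ (g : G) (n : ℤ), φ (g ^ n) = (n : ℝ) * φ g) (g : G) :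
    φ g⁻¹ = - φ g := by
  have := hh g (-1)
  rw [zpow_neg_one] at this
  rw [this]; push_cast; ring

theorem phi_pow (hh : ∀ (g : G) (n : ℤ), φ (g ^ n) = (n : ℝ) * φ g) (g : G) (n : ℕ) :
    φ (g ^ n) = n * φ g := by
  have := hh g n
  rw [zpow_natCast] at this
  rw [this]; push_cast; ring

theorem phi_conj (hD : ∀ g h : G, |φ (g * h) - φ g - φ h| ≤ D)
    (hh : ∀ (g : G) (n : ℤ), φ (g ^ n) = (n : ℝ) * φ g) (h g : G) :
    φ (h * g * h⁻¹) = φ g := by
  have key : φ (h * g * h⁻¹) - φ g = 0 := by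
    apply zero_of_nat_mul_le (C := 2 * D)
    intro n
    have h1 := hD (h * g ^ n) h⁻¹
    have h2 := hD h (g ^ n)
    have h3 : h * g ^ n * h⁻¹ = (h * g * h⁻¹) ^ n := by rw [conj_pow]
    rw [h3, phi_inv hh h, phi_pow hh] at h1
    rw [phi_pow hh] at h2
    have h4 : (n : ℝ) * |φ (h * g * h⁻¹) - φ g| = |(n : ℝ) * (φ (h * g * h⁻¹) - φ g)| := by
      rw [abs_mul, Nat.abs_cast]
    rw [h4]
    rw [abs_le] at h1 h2 ⊢
    constructor <;> linarith [h1.1, h1.2, h2.1, h2.2]
  linarith

theorem phi_comm_le (hD : ∀ g h : G, |φ (g * h) - φ g - φ h| ≤ D)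
    (hh : ∀ (g : G) (n : ℤ), φ (g ^ n) = (n : ℝ) * φ g) (a b : G) :
    |φ (a * b * a⁻¹ * b⁻¹)| ≤ D := by
  have h1 := hD (a * b * a⁻¹) b⁻¹
  rw [phi_conj hD hh, phi_inv hh] at h1
  have h3 : φ (a * b * a⁻¹ * b⁻¹) - φ b - -φ b = φ (a * b * a⁻¹ * b⁻¹) := by ring
  rwa [h3] at h1

end QM

section Wreath

variable (G : Type) [Group G]

/-- the shift automorphism of `G^ℤ` -/
def shift : Multiplicative ℤ →* MulAut (ℤ → G) where
  toFun k :=
    { toFun := fun f n => f (n - k.toAdd)
      invFun := fun f n => f (n + k.toAdd)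
      left_inv := by intro f; ext n; simp
      right_inv := by intro f; ext n; simp
      map_mul' := by intro f g; rfl }
  map_one' := by ext f n; simp
  map_mul' := by
    intro k l
    ext f n
    show f (n - (k * l).toAdd) = f (n - k.toAdd - l.toAdd)
    rw [toAdd_mul]; congr 1; ring

/-- the unrestricted wreath product of `G` with `ℤ` -/
abbrev W : Type := (ℤ → G) ⋊[shift G] (Multiplicative ℤ)

variable {G}

theorem exists_primitive (x : ℤ → G) : ∃ F : ℤ → G, ∀ n, F (n + 1) = x (n + 1) * F n := by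
  let Fp : ℕ → G := fun k => Nat.rec 1 (fun k r => x ((k : ℤ) + 1) * r) k
  let Fm : ℕ → G := fun k => Nat.rec 1 (fun k r => (x (-(k : ℤ)))⁻¹ * r) k
  refine ⟨fun n => if 0 ≤ n then Fp n.toNat else Fm (-n).toNat, fun n => ?_⟩
  rcases le_or_gt 0 n with h | h
  · obtain ⟨k, rfl⟩ := Int.eq_ofNat_of_zero_le h
    have h1 : (0 : ℤ) ≤ (k : ℤ) + 1 := by positivity
    beta_reduce
    rw [if_pos h, if_pos h1]
    have h2 : ((k : ℤ) + 1).toNat = k + 1 := by omega
    rw [h2, Int.toNat_natCast]
  · beta_reduce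
    rw [if_neg (not_le.mpr h)]
    obtain ⟨k, hk⟩ : ∃ k : ℕ, n = -(k : ℤ) - 1 := ⟨(-n - 1).toNat, by omega⟩
    subst hk
    have h2 : (-(-(k : ℤ) - 1)).toNat = k + 1 := by omega
    have h3 : -(k : ℤ) - 1 + 1 = -(k : ℤ) := by ring
    rw [h2, h3]
    show _ = x (-(k : ℤ)) * ((x (-(k : ℤ)))⁻¹ * Fm k)
    rw [mul_inv_cancel_left]
    rcases k with _ | k
    · simp; rfl
    · rw [if_neg (by push_cast; omega)]
      congr 1

theorem inl_comm (x : ℤ → G) : ∃ F : ℤ → G,
    (SemidirectProduct.inl x : W G) = SemidirectProduct.inl F *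
      SemidirectProduct.inr (Multiplicative.ofAdd 1) * (SemidirectProduct.inl F)⁻¹ *
      (SemidirectProduct.inr (Multiplicative.ofAdd 1))⁻¹ := by
  obtain ⟨F, hF⟩ := exists_primitive x
  refine ⟨F, ?_⟩
  apply SemidirectProduct.ext
  · funext n
    have h := hF (n - 1)
    have e : n - 1 + 1 = n := by ring
    rw [e] at h
    have e2 : x n = F n * (F (n - 1))⁻¹ := by rw [h]; group
    rw [SemidirectProduct.mul_left, SemidirectProduct.mul_left, SemidirectProduct.mul_left,
      SemidirectProduct.left_inl, SemidirectProduct.left_inl, e2]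
    simp only [SemidirectProduct.left_inr, SemidirectProduct.right_inl, map_one, mul_one,
      MulAut.one_apply, SemidirectProduct.mul_right, SemidirectProduct.right_inr, one_mul,
      SemidirectProduct.inv_left, SemidirectProduct.inv_right, SemidirectProduct.left_inl,
      inv_one]
    rfl
  · simp

theorem phi_W {φ : W G → ℝ} {D : ℝ} (hD : ∀ g h : W G, |φ (g * h) - φ g - φ h| ≤ D)
    (hh : ∀ (g : W G) (n : ℤ), φ (g ^ n) = (n : ℝ) * φ g) (g h : W G) :
    φ (g * h) = φ g + φ h := by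
  have hN : ∀ x : ℤ → G, φ (SemidirectProduct.inl x) = 0 := by
    intro x
    apply zero_of_nat_mul_le (C := D)
    intro n
    obtain ⟨F, hF⟩ := inl_comm (x ^ n)
    have h1 := phi_comm_le hD hh (SemidirectProduct.inl F)
      (SemidirectProduct.inr (Multiplicative.ofAdd 1))
    rw [← hF, map_pow, phi_pow hh, abs_mul, Nat.abs_cast] at h1
    exact h1
  have hR : ∀ s : Multiplicative ℤ, φ (SemidirectProduct.inr s) =
      (s.toAdd : ℝ) * φ (SemidirectProduct.inr (Multiplicative.ofAdd 1)) := by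
    intro s
    rw [← hh, ← map_zpow]
    congr 2
    rw [← ofAdd_zsmul]; simp
  have hχ : ∀ w : W G, φ w = (w.right.toAdd : ℝ) * φ (SemidirectProduct.inr (Multiplicative.ofAdd 1)) := by
    intro w
    rw [← sub_eq_zero]
    apply zero_of_nat_mul_le (C := D)
    intro n
    have h1 := hD (SemidirectProduct.inl (w ^ n).left) (SemidirectProduct.inr (w ^ n).right)
    rw [SemidirectProduct.inl_left_mul_inr_right, hN, hR, phi_pow hh] at h1
    have h2 : ((w ^ n).right.toAdd : ℝ) = n * (w.right.toAdd : ℝ) := by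
      have : (w ^ n).right = w.right ^ n := map_pow (SemidirectProduct.rightHom) w n
      rw [this, toAdd_pow]; simp
    rw [h2] at h1
    have h3 : (n : ℝ) * φ w - 0 - n * (w.right.toAdd : ℝ) *
      φ (SemidirectProduct.inr (Multiplicative.ofAdd 1)) = n * (φ w - (w.right.toAdd : ℝ) *
      φ (SemidirectProduct.inr (Multiplicative.ofAdd 1))) := by ring
    rw [h3, abs_mul, Nat.abs_cast] at h1
    exact h1
  rw [hχ (g * h), hχ g, hχ h, SemidirectProduct.mul_right, toAdd_mul]
  push_cast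
  ring

/-- every quotient of the wreath product has `Q = Hom` -/
theorem Qtilde_trivial {H : Type} [Group H] (π : W G →* H) (hπ : Function.Surjective π) :
    HomQ H = ⊤ := by
  rw [eq_top_iff]
  rintro ⟨φ, ⟨D, hD⟩, hh⟩ -
  intro g h
  obtain ⟨g', rfl⟩ := hπ g
  obtain ⟨h', rfl⟩ := hπ h
  have := phi_W (φ := fun w => φ (π w)) (D := D)
    (fun a b => by rw [map_mul]; exact hD _ _) (fun a n => by rw [map_zpow]; exact hh _ _) g' h'
  rw [map_mul] at this
  exact this

theorem finite_Qtilde {H : Type} [Group H] (π : W G →* H) (hπ : Function.Surjective π) :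
    Subsingleton (Qtilde H) := by
  have := Qtilde_trivial π hπ
  exact Submodule.Quotient.subsingleton_iff.mpr this

end Wreath

section Amenable

/-- a group containing a free group of rank two is not amenable -/
theorem not_amenable_of_free {H : Type} [Group H] (ι : FreeGroup Bool →* H)
    (hι : Function.Injective ι) : ¬ IsAmenable H := by
  rintro ⟨μ, hpos, huniv, hadd, hinv⟩
  -- a choice of representatives of the right cosets of the free subgroup
  let r : Setoid H :=
    { r := fun x y => ∃ f : FreeGroup Bool, ι f * y = x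
      iseqv :=
        { refl := fun x => ⟨1, by simp⟩
          symm := by
            rintro x y ⟨f, rfl⟩
            exact ⟨f⁻¹, by simp⟩
          trans := by
            rintro x y z ⟨f, rfl⟩ ⟨f', rfl⟩
            exact ⟨f * f', by simp [mul_assoc]⟩ } }
  have hout : ∀ x : H, ∃ f : FreeGroup Bool, ι f * (Quotient.out (Quotient.mk r x)) = x := by
    intro x
    have h1 : (Quotient.out (Quotient.mk r x)) ≈ x := Quotient.mk_out x
    exact Setoid.symm h1
  choose w hw using hout
  have hwf : ∀ (f : FreeGroup Bool) (x : H), w (ι f * x) = f * w x := by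
    intro f x
    have h1 : Quotient.mk r (ι f * x) = Quotient.mk r x := Quotient.sound ⟨f, rfl⟩
    have h2 := hw (ι f * x)
    rw [h1] at h2
    have h3 : ι (w (ι f * x)) * (Quotient.out (Quotient.mk r x)) =
        ι (f * w x) * (Quotient.out (Quotient.mk r x)) := by
      rw [h2, map_mul, mul_assoc, hw x]
    exact hι (mul_right_cancel h3)
  have hmono : ∀ A B : Set H, A ⊆ B → μ A ≤ μ B := by
    intro A B hAB
    have h1 := hadd A (B \ A) Set.disjoint_sdiff_right
    rw [Set.union_sdiff_cancel hAB] at h1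
    have := hpos (B \ A)
    linarith
  let A : Bool × Bool → Set H := fun v => {x | w x ∈ FreeGroup.startsWith v}
  have hA : ∀ v : Bool × Bool, 1 ≤ μ (A (v.1, !v.2)) + μ (A v) := by
    intro v
    have h1 := hadd (A (v.1, !v.2)) (A (v.1, !v.2))ᶜ disjoint_compl_right
    rw [Set.union_compl_self, huniv] at h1
    have h2 : (fun x => ι (FreeGroup.mk [v]) * x) '' (A (v.1, !v.2))ᶜ ⊆ A v := by
      rintro _ ⟨x, hx, rfl⟩
      show w _ ∈ FreeGroup.startsWith v
      rw [hwf]
      exact FreeGroup.startsWith_mk_mul (w x) hx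
    have h3 := hmono _ _ h2
    rw [hinv] at h3
    linarith
  have hdisj : ∀ v v' : Bool × Bool, v ≠ v' → Disjoint (A v) (A v') := by
    intro v v' hv
    have := FreeGroup.startsWith.disjoint_iff_ne.mpr hv
    rw [Set.disjoint_left] at this ⊢
    intro x hx hx'
    exact this hx hx'
  have h1 := hA (true, true)
  have h2 := hA (false, true)
  simp only [Bool.not_true] at h1 h2
  have h3 := hadd (A (true, false)) (A (true, true)) (hdisj _ _ (by decide))
  have h4 := hadd (A (false, false)) (A (false, true)) (hdisj _ _ (by decide))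
  have h5 := hadd (A (true, false) ∪ A (true, true)) (A (false, false) ∪ A (false, true)) (by
    rw [Set.disjoint_union_left, Set.disjoint_union_right, Set.disjoint_union_right]
    exact ⟨⟨hdisj _ _ (by decide), hdisj _ _ (by decide)⟩,
      ⟨hdisj _ _ (by decide), hdisj _ _ (by decide)⟩⟩)
  have h6 := hmono (A (true, false) ∪ A (true, true) ∪ (A (false, false) ∪ A (false, true)))
    Set.univ (Set.subset_univ _)
  rw [huniv] at h6
  linarith

end Amenable


section PL

/-- a piecewise linear order automorphism of `ℚ` commuting with translation by `4` -/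
def fa (x : ℚ) : ℚ :=
  if x - 4 * ⌊(x + 1 / 2) / 4⌋ < 1 / 2 then 4 * ⌊(x + 1 / 2) / 4⌋ + 3 * (x - 4 * ⌊(x + 1 / 2) / 4⌋)
  else 4 * ⌊(x + 1 / 2) / 4⌋ + 2 + (x - 4 * ⌊(x + 1 / 2) / 4⌋ - 2) / 3

theorem fa_left (k : ℤ) (x : ℚ) (h1 : 4 * (k : ℚ) - 1 / 2 ≤ x) (h2 : x < 4 * k + 1 / 2) :
    fa x = 4 * k + 3 * (x - 4 * k) := by
  have hk : ⌊(x + 1 / 2) / 4⌋ = k := by
    rw [Int.floor_eq_iff]; constructor <;> linarith
  unfold fa
  rw [hk, if_pos (by linarith)]

theorem fa_right (k : ℤ) (x : ℚ) (h1 : 4 * (k : ℚ) + 1 / 2 ≤ x) (h2 : x < 4 * k + 7 / 2) :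
    fa x = 4 * k + 2 + (x - 4 * k - 2) / 3 := by
  have hk : ⌊(x + 1 / 2) / 4⌋ = k := by
    rw [Int.floor_eq_iff]; constructor <;> linarith
  unfold fa
  rw [hk, if_neg (by linarith)]

theorem block (x : ℚ) : ∃ k : ℤ, 4 * (k : ℚ) - 1 / 2 ≤ x ∧ x < 4 * k + 7 / 2 := by
  refine ⟨⌊(x + 1 / 2) / 4⌋, ?_, ?_⟩
  · have := Int.floor_le ((x + 1 / 2) / 4)
    linarith
  · have := Int.lt_floor_add_one ((x + 1 / 2) / 4)
    linarith

theorem fa_mem (k : ℤ) (x : ℚ) (h1 : 4 * (k : ℚ) - 1 / 2 ≤ x) (h2 : x < 4 * k + 7 / 2) :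
    4 * (k : ℚ) - 3 / 2 ≤ fa x ∧ fa x < 4 * k + 5 / 2 := by
  rcases lt_or_ge x (4 * k + 1 / 2) with h | h
  · rw [fa_left k x h1 h]; constructor <;> linarith
  · rw [fa_right k x h h2]; constructor <;> linarith

theorem fa_strictMono : StrictMono fa := by
  intro x y hxy
  obtain ⟨k, hk1, hk2⟩ := block x
  obtain ⟨l, hl1, hl2⟩ := block y
  rcases lt_trichotomy k l with h | h | h
  · have h3 : (k : ℚ) + 1 ≤ l := by exact_mod_cast h
    have h4 := (fa_mem k x hk1 hk2).2
    have h5 := (fa_mem l y hl1 hl2).1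
    linarith
  · subst h
    rcases lt_or_ge x (4 * k + 1 / 2) with hx | hx
    · rw [fa_left k x hk1 hx]
      rcases lt_or_ge y (4 * k + 1 / 2) with hy | hy
      · rw [fa_left k y hl1 hy]; linarith
      · rw [fa_right k y hy hl2]; linarith
    · rw [fa_right k x hx hk2, fa_right k y (by linarith) hl2]; linarith
  · have h3 : (l : ℚ) + 1 ≤ k := by exact_mod_cast h
    linarith

theorem fa_surjective : Function.Surjective fa := by
  intro y
  have h1 := Int.floor_le ((y + 3 / 2) / 4)
  have h2 := Int.lt_floor_add_one ((y + 3 / 2) / 4)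
  set k := ⌊(y + 3 / 2) / 4⌋
  rcases lt_or_ge y (4 * k + 3 / 2) with h | h
  · refine ⟨4 * k + (y - 4 * k) / 3, ?_⟩
    rw [fa_left k _ (by linarith) (by linarith)]; ring
  · refine ⟨4 * k + 2 + 3 * (y - 4 * k - 2), ?_⟩
    rw [fa_right k _ (by linarith) (by linarith)]; ring

/-- the automorphism `a` -/
noncomputable def ea : ℚ ≃o ℚ := fa_strictMono.orderIsoOfSurjective fa fa_surjective

/-- translation -/
def tr (c : ℚ) : ℚ ≃o ℚ := OrderIso.addRight c

/-- the two generators -/
noncomputable def gen (i : Bool) : ℚ ≃o ℚ := if i = true then ea else tr 1 * ea * tr (-1)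

theorem gen_true (x : ℚ) : gen true x = fa x := rfl
theorem gen_false (x : ℚ) : gen false x = fa (x - 1) + 1 := by
  rw [sub_eq_add_neg]
  rfl

/-- offset of the ping-pong sets -/
def off (i : Bool) : ℚ := if i = true then 0 else 1

theorem gen_apply (i : Bool) (x : ℚ) : gen i x = fa (x - off i) + off i := by
  cases i
  · rw [gen_false]; simp [off]
  · rw [gen_true]; simp [off]

def X (i : Bool) : Set ℚ := {x | ∃ k : ℤ, 4 * (k : ℚ) + 3 / 2 ≤ x - off i ∧ x - off i < 4 * k + 5 / 2}
def Y (i : Bool) : Set ℚ := {x | ∃ k : ℤ, 4 * (k : ℚ) - 1 / 2 ≤ x - off i ∧ x - off i < 4 * k + 1 / 2}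

theorem int_aux (k l : ℤ) (h1 : 4 * (k : ℚ) < 4 * l + 4) (h2 : 4 * (l : ℚ) < 4 * k + 4) : k = l := by
  have h3 : k < l + 1 := by
    have : (k : ℚ) < l + 1 := by linarith
    exact_mod_cast this
  have h4 : l < k + 1 := by
    have : (l : ℚ) < k + 1 := by linarith
    exact_mod_cast this
  omega

theorem pp (e : Bool → Equiv.Perm ℚ) (he : ∀ i x, e i x = gen i x) :
    Function.Injective (FreeGroup.lift e) := by
  apply FreeGroup.injective_lift_of_ping_pong e X Y
  · intro i
    exact ⟨off i + 2, 0, by push_cast; constructor <;> linarith⟩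
  · intro i j hij
    show Disjoint (X i) (X j)
    rw [Set.disjoint_left]
    rintro x ⟨k, h1, h2⟩ ⟨l, h3, h4⟩
    have h5 := int_aux k l
    cases i <;> cases j <;> simp only [off] at *
    · exact hij rfl
    · norm_num at h1 h2 h3 h4
      have := h5 (by linarith) (by linarith)
      subst this; linarith
    · norm_num at h1 h2 h3 h4
      have := h5 (by linarith) (by linarith)
      subst this; linarith
    · exact hij rfl
  · intro i j hij
    show Disjoint (Y i) (Y j)
    rw [Set.disjoint_left]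
    rintro x ⟨k, h1, h2⟩ ⟨l, h3, h4⟩
    have h5 := int_aux k l
    cases i <;> cases j <;> simp only [off] at *
    · exact hij rfl
    · norm_num at h1 h2 h3 h4
      have := h5 (by linarith) (by linarith)
      subst this; linarith
    · norm_num at h1 h2 h3 h4
      have := h5 (by linarith) (by linarith)
      subst this; linarith
    · exact hij rfl
  · intro i j
    rw [Set.disjoint_left]
    rintro x ⟨k, h1, h2⟩ ⟨l, h3, h4⟩
    have h5 := int_aux k l
    cases i <;> cases j <;> simp only [off] at * <;> norm_num at h1 h2 h3 h4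
    · have := h5 (by linarith) (by linarith)
      subst this; linarith
    · have := h5 (by linarith) (by linarith)
      subst this; linarith
    · have := h5 (by linarith) (by linarith)
      subst this; linarith
    · have := h5 (by linarith) (by linarith)
      subst this; linarith
  · rintro i _ ⟨x, hx, rfl⟩
    show e i x ∈ X i
    rw [he, gen_apply]
    obtain ⟨k, hk1, hk2⟩ := block (x - off i)
    rcases lt_or_ge (x - off i) (4 * k + 1 / 2) with h | h
    · exact absurd ⟨k, hk1, h⟩ hx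
    · refine ⟨k, ?_, ?_⟩ <;> rw [fa_right k _ h hk2] <;> linarith
  · rintro i _ ⟨y, hy, rfl⟩
    show (e i)⁻¹ y ∈ Y i
    set x := (e i)⁻¹ y with hx
    have hy' : y = e i x := by rw [hx]; simp
    rw [hy', he, gen_apply] at hy
    obtain ⟨k, hk1, hk2⟩ := block (x - off i)
    rcases lt_or_ge (x - off i) (4 * k + 1 / 2) with h | h
    · exact ⟨k, hk1, h⟩
    · exfalso
      apply hy
      refine ⟨k, ?_, ?_⟩ <;> rw [fa_right k _ h hk2] <;> linarith

/-- the free group of rank two inside the group of order automorphisms of `ℚ` -/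
noncomputable def freeIn : FreeGroup Bool →* (ℚ ≃o ℚ) := FreeGroup.lift gen

/-- the permutation underlying an order automorphism -/
def toPerm (α : Type) [LE α] : (α ≃o α) →* Equiv.Perm α where
  toFun f := f.toEquiv
  map_one' := rfl
  map_mul' _ _ := rfl

theorem freeIn_injective : Function.Injective freeIn := by
  have h1 := pp (fun i => toPerm ℚ (gen i)) (fun i x => rfl)
  have h2 : (toPerm ℚ).comp freeIn = FreeGroup.lift (fun i => toPerm ℚ (gen i)) := by
    ext1 i
    simp [freeIn]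
  rw [← h2] at h1
  intro a b hab
  apply h1
  show toPerm ℚ (freeIn a) = toPerm ℚ (freeIn b)
  rw [hab]

end PL


section Realize

variable {Y : Type} [LinearOrder Y]

/-- left end of the gap indexed by `y` -/
noncomputable def L (m : Y → ℝ) (y : Y) : ℝ := ∑' z, if z < y then m z else 0

/-- clamp -/
noncomputable def cl (t : ℝ) : ℝ := max 0 (min 1 t)

theorem cl_of_nonpos {t : ℝ} (h : t ≤ 0) : cl t = 0 := by
  unfold cl; rw [min_eq_right (by linarith), max_eq_left h]

theorem cl_of_ge {t : ℝ} (h : 1 ≤ t) : cl t = 1 := by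
  unfold cl; rw [min_eq_left h, max_eq_right zero_le_one]

theorem cl_of_mem {t : ℝ} (h0 : 0 ≤ t) (h1 : t ≤ 1) : cl t = t := by
  unfold cl; rw [min_eq_right h1, max_eq_right h0]

theorem cl_nonneg (t : ℝ) : 0 ≤ cl t := le_max_left _ _

theorem cl_le_one (t : ℝ) : cl t ≤ 1 := max_le zero_le_one (min_le_left _ _)

theorem cl_mono : Monotone cl := fun _ _ h => max_le_max le_rfl (min_le_min le_rfl h)

theorem cl_cont : Continuous cl := by unfold cl; fun_prop

variable {m : Y → ℝ} (hm : ∀ y, 0 < m y) (hs : Summable m)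

include hm hs

theorem summable_ite (p : Y → Prop) [DecidablePred p] : Summable (fun z => if p z then m z else 0) :=
  Summable.of_nonneg_of_le (fun z => by split_ifs <;> simp [(hm z).le])
    (fun z => by split_ifs <;> simp [(hm z).le]) hs

theorem L_nonneg (y : Y) : 0 ≤ L m y :=
  tsum_nonneg fun z => by split_ifs <;> simp [(hm z).le]

theorem L_add_le {y z : Y} (h : y < z) : L m y + m y ≤ L m z := by
  classical
  have h1 : L m y + m y = ∑' w, ((if w < y then m w else 0) + (if w = y then m w else 0)) := by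
    rw [Summable.tsum_add (summable_ite hm hs _) (summable_ite hm hs _)]
    congr 1
    rw [tsum_ite_eq]
  rw [h1]
  refine Summable.tsum_le_tsum (fun w => ?_)
    ((summable_ite hm hs _).add (summable_ite hm hs _)) (summable_ite hm hs _)
  rcases lt_trichotomy w y with h2 | h2 | h2
  · rw [if_pos h2, if_neg h2.ne, if_pos (h2.trans h)]; simp
  · subst h2; simp [h]
  · rw [if_neg (not_lt.mpr h2.le), if_neg h2.ne']
    split_ifs
    · simp [(hm w).le]
    · simp

theorem L_strictMono : StrictMono (L m) := fun y z h => by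
  have := L_add_le hm hs h
  have := hm y
  linarith

theorem L_add_le_total (y : Y) : L m y + m y ≤ ∑' z, m z := by
  classical
  have h1 : L m y + m y = ∑' w, ((if w < y then m w else 0) + (if w = y then m w else 0)) := by
    rw [Summable.tsum_add (summable_ite hm hs _) (summable_ite hm hs _)]
    congr 1
    rw [tsum_ite_eq]
  rw [h1]
  refine Summable.tsum_le_tsum (fun w => ?_)
    ((summable_ite hm hs _).add (summable_ite hm hs _)) hs
  rcases lt_trichotomy w y with h2 | h2 | h2
  · rw [if_pos h2, if_neg h2.ne]; simp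
  · subst h2; simp
  · rw [if_neg (not_lt.mpr h2.le), if_neg h2.ne']
    simp [(hm w).le]

theorem L_lt_total (y : Y) : L m y < ∑' z, m z := by
  have := L_add_le_total hm hs y
  have := hm y
  linarith

/-- finite sums below -/
theorem sum_le_right (s : Finset Y) {u : ℝ} (hu : 0 ≤ u) (h : ∀ y ∈ s, L m y + m y ≤ u) :
    ∑ y ∈ s, m y ≤ u := by
  classical
  rcases s.eq_empty_or_nonempty with rfl | hne
  · simpa using hu
  · set y0 := s.max' hne with hy0
    have h1 : ∑ y ∈ s, m y ≤ L m y0 + m y0 := by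
      have h2 : ∑ y ∈ s, m y = ∑ y ∈ s.erase y0, m y + m y0 :=
        (Finset.sum_erase_add s m (Finset.max'_mem s hne)).symm
      rw [h2]
      have h3 : ∑ y ∈ s.erase y0, m y = ∑ y ∈ s.erase y0, (if y < y0 then m y else 0) := by
        refine Finset.sum_congr rfl fun y hy => ?_
        rw [Finset.mem_erase] at hy
        rw [if_pos (lt_of_le_of_ne (Finset.le_max' s y hy.2) hy.1)]
      rw [h3]
      have h4 : ∑ y ∈ s.erase y0, (if y < y0 then m y else 0) ≤ L m y0 :=
        (summable_ite hm hs _).sum_le_tsum _ fun z _ => by split_ifs <;> simp [(hm z).le]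
      linarith
    exact h1.trans (h y0 (Finset.max'_mem s hne))

theorem sum_le_left (s : Finset Y) {v : ℝ} (hv : v ≤ ∑' z, m z) (h : ∀ y ∈ s, v ≤ L m y) :
    ∑ y ∈ s, m y ≤ (∑' z, m z) - v := by
  classical
  rcases s.eq_empty_or_nonempty with rfl | hne
  · simpa using hv
  · set y0 := s.min' hne with hy0
    have h1 : ∑ y ∈ s, m y + L m y0 ≤ ∑' z, m z := by
      have h3 : ∑ y ∈ s, m y = ∑ y ∈ s, (if y0 ≤ y then m y else 0) := by
        refine Finset.sum_congr rfl fun y hy => ?_
        rw [if_pos (Finset.min'_le s y hy)]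
      have h4 : ∑ y ∈ s, (if y0 ≤ y then m y else 0) ≤ ∑' y, (if y0 ≤ y then m y else 0) :=
        (summable_ite hm hs _).sum_le_tsum _ fun z _ => by split_ifs <;> simp [(hm z).le]
      have h5 : (∑' y, (if y0 ≤ y then m y else 0)) + L m y0 = ∑' z, m z := by
        unfold L
        rw [← Summable.tsum_add (summable_ite hm hs _) (summable_ite hm hs _)]
        refine tsum_congr fun z => ?_
        rcases lt_or_ge z y0 with h6 | h6
        · rw [if_neg (not_le.mpr h6), if_pos h6, zero_add]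
        · rw [if_pos h6, if_neg (not_lt.mpr h6), add_zero]
      linarith
    have := h y0 (Finset.min'_mem s hne)
    linarith

/-- the gaps are dense -/
theorem gap_dense {u v : ℝ} (hu : 0 ≤ u) (huv : u < v) (hv : v ≤ ∑' z, m z) :
    ∃ y, ∃ x, u < x ∧ x < v ∧ L m y < x ∧ x < L m y + m y := by
  classical
  by_contra hcon
  push Not at hcon
  have hdich : ∀ y, L m y + m y ≤ u ∨ v ≤ L m y := by
    intro y
    by_contra h
    push Not at h
    have hmy := hm y
    -- a point in the intersection of the intervals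
    have h1 : max u (L m y) < min v (L m y + m y) :=
      max_lt (lt_min huv h.1) (lt_min h.2 (by linarith))
    obtain ⟨x, hx1, hx2⟩ := exists_between h1
    have h2 := hcon y x (lt_of_le_of_lt (le_max_left _ _) hx1) (lt_of_lt_of_le hx2 (min_le_left _ _))
      (lt_of_le_of_lt (le_max_right _ _) hx1)
    have h3 := lt_of_lt_of_le hx2 (min_le_right _ _)
    linarith
  have hA : ∑' y, (if L m y + m y ≤ u then m y else 0) ≤ u := by
    refine (summable_ite hm hs _).tsum_le_of_sum_le fun s => ?_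
    rw [← Finset.sum_filter]
    exact sum_le_right hm hs _ hu fun y hy => (Finset.mem_filter.mp hy).2
  have hB : ∑' y, (if v ≤ L m y then m y else 0) ≤ (∑' z, m z) - v := by
    refine (summable_ite hm hs _).tsum_le_of_sum_le fun s => ?_
    rw [← Finset.sum_filter]
    exact sum_le_left hm hs _ hv fun y hy => (Finset.mem_filter.mp hy).2
  have hT : ∑' z, m z ≤ (∑' y, (if L m y + m y ≤ u then m y else 0)) +
      ∑' y, (if v ≤ L m y then m y else 0) := by
    rw [← Summable.tsum_add (summable_ite hm hs _) (summable_ite hm hs _)]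
    refine Summable.tsum_le_tsum (fun y => ?_) hs
      ((summable_ite hm hs _).add (summable_ite hm hs _))
    rcases hdich y with h | h
    · rw [if_pos h]
      split_ifs <;> simp [(hm y).le]
    · rw [if_pos h]
      split_ifs <;> simp [(hm y).le]
  linarith


/-- the homeomorphism of the line induced by an order automorphism of `Y` -/
noncomputable def F (m : Y → ℝ) (g : Y ≃o Y) (x : ℝ) : ℝ :=
  min x 0 + max (x - ∑' z, m z) 0 + ∑' y, m (g y) * cl ((x - L m y) / m y)

theorem term_bound (g : Y ≃o Y) (x : ℝ) (y : Y) :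
    0 ≤ m (g y) * cl ((x - L m y) / m y) ∧ m (g y) * cl ((x - L m y) / m y) ≤ m (g y) := by
  have h1 := cl_nonneg ((x - L m y) / m y)
  have h2 := cl_le_one ((x - L m y) / m y)
  have h3 := (hm (g y)).le
  constructor
  · positivity
  · nlinarith

theorem summable_g (g : Y ≃o Y) : Summable fun y => m (g y) :=
  hs.comp_injective g.injective

theorem tsum_g (g : Y ≃o Y) : ∑' y, m (g y) = ∑' y, m y := g.toEquiv.tsum_eq m

theorem summable_term (g : Y ≃o Y) (x : ℝ) :
    Summable fun y => m (g y) * cl ((x - L m y) / m y) :=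
  Summable.of_nonneg_of_le (fun y => (term_bound hm hs g x y).1)
    (fun y => (term_bound hm hs g x y).2) (summable_g hm hs g)

theorem F_cont (g : Y ≃o Y) : Continuous (F m g) := by
  unfold F
  refine Continuous.add (by fun_prop) ?_
  refine continuous_tsum (fun y => ?_) (summable_g hm hs g) (fun y x => ?_)
  · exact continuous_const.mul (cl_cont.comp (by fun_prop))
  · rw [Real.norm_eq_abs, abs_of_nonneg (term_bound hm hs g x y).1]
    exact (term_bound hm hs g x y).2

theorem F_mono (g : Y ≃o Y) : Monotone (F m g) := by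
  intro x x' h
  unfold F
  have h1 : min x 0 ≤ min x' 0 := min_le_min h le_rfl
  have h2 : max (x - ∑' z, m z) 0 ≤ max (x' - ∑' z, m z) 0 := max_le_max (by linarith) le_rfl
  have h3 : ∑' y, m (g y) * cl ((x - L m y) / m y) ≤ ∑' y, m (g y) * cl ((x' - L m y) / m y) := by
    refine Summable.tsum_le_tsum (fun y => ?_) (summable_term hm hs g x) (summable_term hm hs g x')
    refine mul_le_mul_of_nonneg_left (cl_mono ?_) (hm (g y)).le
    exact div_le_div_of_nonneg_right (by linarith) (hm y).le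
  linarith

theorem F_nonpos (g : Y ≃o Y) {x : ℝ} (hx : x ≤ 0) : F m g x = x := by
  have hM : 0 ≤ ∑' z, m z := tsum_nonneg fun z => (hm z).le
  have h1 : ∑' y, m (g y) * cl ((x - L m y) / m y) = 0 := by
    rw [← tsum_zero (α := ℝ) (β := Y)]
    refine tsum_congr fun y => ?_
    have := L_nonneg hm hs y
    rw [cl_of_nonpos (div_nonpos_of_nonpos_of_nonneg (by linarith) (hm y).le), mul_zero]
  unfold F
  rw [h1, min_eq_left hx, max_eq_right (by linarith)]
  ring

theorem F_ge (g : Y ≃o Y) {x : ℝ} (hx : ∑' z, m z ≤ x) : F m g x = x := by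
  have hM : 0 ≤ ∑' z, m z := tsum_nonneg fun z => (hm z).le
  have h1 : ∑' y, m (g y) * cl ((x - L m y) / m y) = ∑' y, m y := by
    rw [← tsum_g hm hs g]
    refine tsum_congr fun y => ?_
    have := L_add_le_total hm hs y
    rw [cl_of_ge ((one_le_div (hm y)).mpr (by linarith)), mul_one]
  unfold F
  rw [h1, min_eq_right (by linarith), max_eq_left (by linarith)]
  ring

theorem L_g (g : Y ≃o Y) (y : Y) : ∑' z, (if z < y then m (g z) else 0) = L m (g y) := by
  unfold L
  rw [← g.toEquiv.tsum_eq (fun z => if z < g y then m z else 0)]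
  refine tsum_congr fun z => ?_
  show _ = if g z < g y then m (g z) else 0
  simp only [OrderIso.lt_iff_lt]

theorem F_gap (g : Y ≃o Y) (y : Y) {x : ℝ} (h1 : L m y ≤ x) (h2 : x ≤ L m y + m y) :
    F m g x = L m (g y) + m (g y) * ((x - L m y) / m y) := by
  classical
  have hL := L_nonneg hm hs y
  have hR := L_add_le_total hm hs y
  unfold F
  rw [min_eq_right (by linarith), max_eq_right (by linarith), ← L_g hm hs g y]
  have h3 : ∀ z, m (g z) * cl ((x - L m z) / m z) = (if z < y then m (g z) else 0) +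
      (if z = y then m (g z) * ((x - L m z) / m z) else 0) := by
    intro z
    rcases lt_trichotomy z y with h | h | h
    · have h4 := L_add_le hm hs h
      rw [if_pos h, if_neg h.ne, cl_of_ge ((one_le_div (hm z)).mpr (by linarith))]
      ring
    · subst h
      rw [if_neg (lt_irrefl _), if_pos rfl, cl_of_mem (div_nonneg (by linarith) (hm z).le)
        ((div_le_one (hm z)).mpr (by linarith))]
      ring
    · have h4 := L_add_le hm hs h
      rw [if_neg (not_lt.mpr h.le), if_neg h.ne', cl_of_nonpos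
        (div_nonpos_of_nonpos_of_nonneg (by linarith) (hm z).le)]
      ring
  have h4 : Summable fun z => (if z < y then m (g z) else 0) :=
    Summable.of_nonneg_of_le (fun z => by split_ifs <;> simp [(hm (g z)).le])
      (fun z => by split_ifs <;> simp [(hm (g z)).le]) (summable_g hm hs g)
  rw [tsum_congr h3, Summable.tsum_add h4 (by
    refine summable_of_ne_finset_zero (s := {y}) fun z hz => ?_
    rw [if_neg (by simpa using hz)])]
  rw [tsum_ite_eq]
  ring

/-- the union of the gaps and of the two outer half lines -/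
def D0 (m : Y → ℝ) : Set ℝ := {x | x ≤ 0 ∨ ∑' z, m z ≤ x ∨ ∃ y, L m y < x ∧ x < L m y + m y}

theorem D0_dense : Dense (D0 m) := by
  rw [dense_iff_inter_open]
  intro U hU hne
  obtain ⟨x, hx⟩ := hne
  obtain ⟨ε, hε, hball⟩ := Metric.isOpen_iff.mp hU x hx
  by_cases h0 : x ≤ 0
  · exact ⟨x, hx, Or.inl h0⟩
  · by_cases h1 : ∑' z, m z ≤ x
    · exact ⟨x, hx, Or.inr (Or.inl h1)⟩
    · push Not at h0 h1
      obtain ⟨y, t, ht1, ht2, ht3, ht4⟩ := gap_dense hm hs h0.le
        (lt_min (show x < x + ε by linarith) h1) (min_le_right _ _)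
      refine ⟨t, hball ?_, Or.inr (Or.inr ⟨y, ht3, ht4⟩)⟩
      have := lt_of_lt_of_le ht2 (min_le_left _ _)
      rw [Metric.mem_ball, Real.dist_eq, abs_lt]
      constructor <;> linarith

theorem F_mul (g h : Y ≃o Y) (x : ℝ) : F m (g * h) x = F m g (F m h x) := by
  have hc1 := F_cont hm hs (g * h)
  have hc2 := (F_cont hm hs g).comp (F_cont hm hs h)
  have hEq : Set.EqOn (F m (g * h)) (F m g ∘ F m h) (D0 m) := by
    rintro x (hx | hx | ⟨y, h1, h2⟩)
    · simp only [Function.comp]
      rw [F_nonpos hm hs _ hx, F_nonpos hm hs _ hx, F_nonpos hm hs _ hx]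
    · simp only [Function.comp]
      rw [F_ge hm hs _ hx, F_ge hm hs _ hx, F_ge hm hs _ hx]
    · simp only [Function.comp]
      have hmy := hm y
      have hmhy := hm (h y)
      have hq0 : 0 ≤ (x - L m y) / m y := div_nonneg (by linarith) hmy.le
      have hq1 : (x - L m y) / m y ≤ 1 := (div_le_one hmy).mpr (by linarith)
      rw [F_gap hm hs (g * h) y h1.le h2.le, F_gap hm hs h y h1.le h2.le,
        F_gap hm hs g (h y) (by nlinarith) (by nlinarith)]
      show L m (g (h y)) + m (g (h y)) * _ = _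
      rw [add_sub_cancel_left, mul_div_cancel_left₀ _ hmhy.ne']
  exact congrFun (Continuous.ext_on (D0_dense hm hs) hc1 hc2 hEq) x

theorem F_one (x : ℝ) : F m (1 : Y ≃o Y) x = x := by
  have hc1 := F_cont hm hs (1 : Y ≃o Y)
  have hEq : Set.EqOn (F m (1 : Y ≃o Y)) id (D0 m) := by
    rintro x (hx | hx | ⟨y, h1, h2⟩)
    · exact F_nonpos hm hs _ hx
    · exact F_ge hm hs _ hx
    · rw [F_gap hm hs 1 y h1.le h2.le]
      show L m y + m y * _ = x
      rw [mul_div_cancel₀ _ (hm y).ne']
      ring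
  exact congrFun (Continuous.ext_on (D0_dense hm hs) hc1 continuous_id hEq) x

/-- the Cantor set on the line -/
def C0 (m : Y → ℝ) : Set ℝ := {x | 0 ≤ x ∧ x ≤ ∑' z, m z ∧ ∀ y, ¬ (L m y < x ∧ x < L m y + m y)}

theorem F_gap_mem (g : Y ≃o Y) (y : Y) {x : ℝ} (h1 : L m y < x) (h2 : x < L m y + m y) :
    L m (g y) < F m g x ∧ F m g x < L m (g y) + m (g y) := by
  rw [F_gap hm hs g y h1.le h2.le]
  have hmy := hm y
  have hmgy := hm (g y)
  have hq0 : 0 < (x - L m y) / m y := div_pos (by linarith) hmy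
  have hq1 : (x - L m y) / m y < 1 := (div_lt_one hmy).mpr (by linarith)
  constructor
  · nlinarith
  · nlinarith

theorem F_inv_left (g : Y ≃o Y) (x : ℝ) : F m g⁻¹ (F m g x) = x := by
  rw [← F_mul hm hs, inv_mul_cancel, F_one hm hs]

theorem F_inv_right (g : Y ≃o Y) (x : ℝ) : F m g (F m g⁻¹ x) = x := by
  rw [← F_mul hm hs, mul_inv_cancel, F_one hm hs]

theorem F_mem_C0 (g : Y ≃o Y) {x : ℝ} (hx : x ∈ C0 m) : F m g x ∈ C0 m := by
  have hM : 0 ≤ ∑' z, m z := tsum_nonneg fun z => (hm z).le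
  obtain ⟨h0, h1, h2⟩ := hx
  refine ⟨?_, ?_, ?_⟩
  · rw [← F_nonpos hm hs g le_rfl]; exact F_mono hm hs g h0
  · have := F_mono hm hs g h1
    rwa [F_ge hm hs g le_rfl] at this
  · rintro y ⟨h3, h4⟩
    have h5 := F_gap_mem hm hs g⁻¹ y h3 h4
    rw [F_inv_left hm hs] at h5
    exact h2 _ h5

theorem F_mem_C0_iff (g : Y ≃o Y) {x : ℝ} : F m g x ∈ C0 m ↔ x ∈ C0 m := by
  constructor
  · intro h
    have := F_mem_C0 hm hs g⁻¹ h
    rwa [F_inv_left hm hs] at this
  · exact F_mem_C0 hm hs g

theorem L_mem_C0 (y : Y) : L m y ∈ C0 m := by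
  have hR := L_add_le_total hm hs y
  have hmy := hm y
  refine ⟨L_nonneg hm hs y, by linarith, ?_⟩
  rintro z ⟨h1, h2⟩
  have h3 : z < y := (L_strictMono hm hs).lt_iff_lt.mp h1
  have := L_add_le hm hs h3
  linarith

theorem R_mem_C0 (y : Y) : L m y + m y ∈ C0 m := by
  have hR := L_add_le_total hm hs y
  have hL := L_nonneg hm hs y
  have hmy := hm y
  refine ⟨by linarith, hR, ?_⟩
  rintro z ⟨h1, h2⟩
  rcases lt_trichotomy z y with h | h | h
  · have := L_add_le hm hs h
    linarith
  · subst h; linarith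
  · have := L_add_le hm hs h
    linarith

theorem F_faithful (g : Y ≃o Y) (h : ∀ x ∈ C0 m, F m g x = x) : g = 1 := by
  ext y
  have h1 := h _ (L_mem_C0 hm hs y)
  rw [F_gap hm hs g y le_rfl (by linarith [hm y])] at h1
  simp only [sub_self, zero_div, mul_zero, add_zero] at h1
  exact (L_strictMono hm hs).injective h1

theorem C0_no_interval {u v : ℝ} (huv : u < v) (hu : u ∈ C0 m) (hv : v ∈ C0 m) :
    ∃ x, u < x ∧ x < v ∧ x ∉ C0 m := by
  obtain ⟨y, x, h1, h2, h3, h4⟩ := gap_dense hm hs hu.1 huv hv.2.1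
  exact ⟨x, h1, h2, fun hx => hx.2.2 y ⟨h3, h4⟩⟩

theorem C0_closed : IsClosed (C0 m) := by
  have : C0 m = Icc 0 (∑' z, m z) ∩ ⋂ y, (Ioo (L m y) (L m y + m y))ᶜ := by
    ext x
    simp only [C0, mem_inter_iff, mem_Icc, mem_iInter, mem_compl_iff, mem_Ioo]
    exact ⟨fun h => ⟨⟨h.1, h.2.1⟩, h.2.2⟩, fun h => ⟨h.1.1, h.1.2, h.2⟩⟩
  rw [this]
  exact isClosed_Icc.inter (isClosed_iInter fun y => isOpen_Ioo.isClosed_compl)

theorem C0_perfect [DenselyOrdered Y] [NoMinOrder Y] [NoMaxOrder Y] [Nonempty Y] {x : ℝ}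
    (hx : x ∈ C0 m) {ε : ℝ} (hε : 0 < ε) :
    ∃ x' ∈ C0 m, x' ≠ x ∧ |x' - x| < ε := by
  obtain ⟨h0, h1, h2⟩ := hx
  have hM : 0 < ∑' z, m z := by
    obtain ⟨y⟩ := (inferInstance : Nonempty Y)
    have := L_add_le_total hm hs y
    have := L_nonneg hm hs y
    have := hm y
    linarith
  -- look to the left of `x`
  have hleft : 0 < x → (∃ x' ∈ C0 m, x' ≠ x ∧ |x' - x| < ε) ∨ ∃ y, L m y + m y = x := by
    intro hx0
    obtain ⟨y, t, ht1, ht2, ht3, ht4⟩ := gap_dense hm hs (le_max_left 0 (x - ε))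
      (max_lt hx0 (by linarith)) h1
    have h3 : L m y + m y ≤ x := by
      by_contra h4
      push Not at h4
      exact h2 y ⟨by linarith, h4⟩
    rcases h3.eq_or_lt with h4 | h4
    · exact Or.inr ⟨y, h4⟩
    · left
      refine ⟨_, R_mem_C0 hm hs y, h4.ne, ?_⟩
      have := lt_of_le_of_lt (le_max_right 0 (x - ε)) ht1
      rw [abs_lt]; constructor <;> linarith
  have hright : x < ∑' z, m z → (∃ x' ∈ C0 m, x' ≠ x ∧ |x' - x| < ε) ∨ ∃ y, L m y = x := by
    intro hx0
    obtain ⟨y, t, ht1, ht2, ht3, ht4⟩ := gap_dense hm hs h0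
      (lt_min hx0 (show x < x + ε by linarith)) (min_le_left _ _)
    have h3 : x ≤ L m y := by
      by_contra h4
      push Not at h4
      exact h2 y ⟨h4, by linarith⟩
    rcases h3.eq_or_lt with h4 | h4
    · exact Or.inr ⟨y, h4.symm⟩
    · left
      refine ⟨_, L_mem_C0 hm hs y, h4.ne', ?_⟩
      have := lt_of_lt_of_le ht2 (min_le_right _ _)
      rw [abs_lt]; constructor <;> linarith
  rcases h0.eq_or_lt with h3 | h3
  · rcases hright (by linarith) with h4 | ⟨y, hy⟩
    · exact h4
    · obtain ⟨z, hz⟩ := exists_lt y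
      have := L_add_le hm hs hz
      have := L_nonneg hm hs z
      have := hm z
      linarith
  · rcases hleft h3 with h4 | ⟨y', hy'⟩
    · exact h4
    · rcases h1.eq_or_lt with h5 | h5
      · obtain ⟨z, hz⟩ := exists_gt y'
        have := L_add_le hm hs hz
        have := L_add_le_total hm hs z
        have := hm z
        linarith
      · rcases hright h5 with h4 | ⟨y, hy⟩
        · exact h4
        · have hlt : y' < y := by
            have := hm y'
            exact (L_strictMono hm hs).lt_iff_lt.mp (by linarith)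
          obtain ⟨z, hz1, hz2⟩ := exists_between hlt
          have := L_add_le hm hs hz1
          have := L_add_le hm hs hz2
          have := hm z
          linarith

end Realize


noncomputable section Plane

/-- The complement `ℝ² - C` of `C` in the plane `ℝ² = ℂ`. -/
def S (C : Set ℂ) : Type := {z : ℂ // z ∉ C}

/-- The subspace topology of `ℝ² - C`. -/
noncomputable instance topS (C : Set ℂ) : TopologicalSpace (S C) :=
  TopologicalSpace.induced Subtype.val inferInstance

/-- The inclusion of `ℝ² - C` in the plane. -/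
def pt {C : Set ℂ} (p : S C) : ℂ := p.1

/-- A point of the plane outside `C`, as a point of `ℝ² - C`. -/
def mkS {C : Set ℂ} (z : ℂ) (hz : z ∉ C) : S C := ⟨z, hz⟩

theorem isEmbedding_pt {C : Set ℂ} : Topology.IsEmbedding (pt : S C → ℂ) :=
  Topology.IsEmbedding.subtypeVal

theorem continuous_pt {C : Set ℂ} : Continuous (pt : S C → ℂ) := isEmbedding_pt.continuous

/-- The loop `γ` (a function of period one, avoiding `p`) has winding number `k` around `p`:
`γ - p = exp θ` for a continuous `θ` with `θ (t + 1) = θ t + 2 π i k`. -/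
def HasWinding (γ : ℝ → ℂ) (p : ℂ) (k : ℤ) : Prop :=
  ∃ θ : ℝ → ℂ, Continuous θ ∧ (∀ t, Complex.exp (θ t) = γ t - p) ∧
    ∀ t, θ (t + 1) = θ t + 2 * Real.pi * Complex.I * k

/-- The homeomorphism `h` of `ℝ² - C` preserves orientation: it has local degree one at every
point `p`, i.e. the winding number around `p` of every loop `γ` in a small punctured neighbourhood
of `p` equals the winding number of `h ∘ γ` around `h p`. -/
def OrientationPreserving {C : Set ℂ} (h : S C ≃ₜ S C) : Prop :=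
  ∀ p : S C, ∃ U ∈ 𝓝 p, ∀ γ : ℝ → S C, Continuous γ → (∀ t, γ (t + 1) = γ t) →
    (∀ t, γ t ∈ U ∧ γ t ≠ p) → ∀ k : ℤ,
      (HasWinding (fun t => pt (γ t)) (pt p) k ↔ HasWinding (fun t => pt (h (γ t))) (pt (h p)) k)

theorem op_one {C : Set ℂ} : OrientationPreserving (1 : S C ≃ₜ S C) :=
  fun _ => ⟨univ, univ_mem, fun _ _ _ _ _ => Iff.rfl⟩

theorem op_mul {C : Set ℂ} {f g : S C ≃ₜ S C} (hf : OrientationPreserving f)
    (hg : OrientationPreserving g) : OrientationPreserving (f * g) := by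
  intro p
  obtain ⟨U, hU, h1⟩ := hg p
  obtain ⟨V, hV, h2⟩ := hf (g p)
  refine ⟨U ∩ g ⁻¹' V, inter_mem hU (g.continuous.continuousAt.preimage_mem_nhds hV),
    fun γ hγ hper hmem k => ?_⟩
  rw [h1 γ hγ hper (fun t => ⟨(hmem t).1.1, (hmem t).2⟩) k]
  exact h2 (fun t => g (γ t)) (g.continuous.comp hγ) (fun t => by simp only [hper t])
    (fun t => ⟨(hmem t).1.2, fun h => (hmem t).2 (g.injective h)⟩) k

theorem op_inv {C : Set ℂ} {h : S C ≃ₜ S C} (hh : OrientationPreserving h) :
    OrientationPreserving h⁻¹ := by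
  intro q
  obtain ⟨U, hU, h1⟩ := hh (h⁻¹ q)
  refine ⟨(h⁻¹ : S C ≃ₜ S C) ⁻¹' U, (h⁻¹ : S C ≃ₜ S C).continuous.continuousAt.preimage_mem_nhds hU,
    fun γ hγ hper hmem k => ?_⟩
  have h2 := h1 (fun t => h⁻¹ (γ t)) ((h⁻¹ : S C ≃ₜ S C).continuous.comp hγ)
    (fun t => by simp only [hper t]) (fun t => ⟨(hmem t).1, fun h' =>
      (hmem t).2 ((h⁻¹ : S C ≃ₜ S C).injective h')⟩) k
  have e : ∀ x, h (h⁻¹ x) = x := fun x => h.apply_symm_apply x
  simp only [e] at h2
  exact h2.symm

/-- The group `Homeo⁺(ℝ² - C)` of orientation preserving homeomorphisms. -/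
def HomeoPlus (C : Set ℂ) : Subgroup (S C ≃ₜ S C) where
  carrier := {h | OrientationPreserving h}
  one_mem' := op_one
  mul_mem' := op_mul
  inv_mem' := op_inv

/-- The homeomorphism `h` of `ℝ² - C` is isotopic to the identity: there are homeomorphisms
`H t` of `ℝ² - C` for `t` in `[0, 1]`, with `H 0 = id` and `H 1 = h`, such that `H t p` and
`(H t)⁻¹ p` are continuous functions of `(t, p)`. -/
def IsotopicToId {C : Set ℂ} (h : S C ≃ₜ S C) : Prop :=
  ∃ H : unitInterval → (S C ≃ₜ S C), Continuous (fun x : unitInterval × S C => H x.1 x.2) ∧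
    Continuous (fun x : unitInterval × S C => (H x.1).symm x.2) ∧ H 0 = 1 ∧ H 1 = h

theorem iso_one {C : Set ℂ} : IsotopicToId (1 : S C ≃ₜ S C) :=
  ⟨fun _ => 1, continuous_snd, continuous_snd, rfl, rfl⟩

theorem iso_mul {C : Set ℂ} {f g : S C ≃ₜ S C} (hf : IsotopicToId f) (hg : IsotopicToId g) :
    IsotopicToId (f * g) := by
  obtain ⟨H, a1, a2, a3, a4⟩ := hf
  obtain ⟨K, b1, b2, b3, b4⟩ := hg
  refine ⟨fun t => H t * K t, ?_, ?_, ?_, ?_⟩
  · exact a1.comp (continuous_fst.prodMk b1)
  · exact b2.comp (continuous_fst.prodMk a2)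
  · show H 0 * K 0 = 1
    rw [a3, b3, one_mul]
  · show H 1 * K 1 = f * g
    rw [a4, b4]

theorem iso_inv {C : Set ℂ} {f : S C ≃ₜ S C} (hf : IsotopicToId f) : IsotopicToId f⁻¹ := by
  obtain ⟨H, a1, a2, a3, a4⟩ := hf
  refine ⟨fun t => (H t)⁻¹, a2, a1, ?_, ?_⟩
  · show (H 0)⁻¹ = 1
    rw [a3, inv_one]
  · show (H 1)⁻¹ = f⁻¹
    rw [a4]

theorem iso_conj {C : Set ℂ} {f : S C ≃ₜ S C} (hf : IsotopicToId f) (g : S C ≃ₜ S C) :
    IsotopicToId (g * f * g⁻¹) := by
  obtain ⟨H, a1, a2, a3, a4⟩ := hf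
  have hg : Continuous fun x : unitInterval × S C => (x.1, g.symm x.2) :=
    continuous_fst.prodMk (g.symm.continuous.comp continuous_snd)
  refine ⟨fun t => g * H t * g⁻¹, ?_, ?_, ?_, ?_⟩
  · exact g.continuous.comp (a1.comp hg)
  · exact g.continuous.comp (a2.comp hg)
  · show g * H 0 * g⁻¹ = 1
    rw [a3, mul_one, mul_inv_cancel]
  · show g * H 1 * g⁻¹ = g * f * g⁻¹
    rw [a4]

/-- `HomeoPlus C` as a group in its own right. -/
def Plus (C : Set ℂ) : Type := HomeoPlus C

instance groupPlus (C : Set ℂ) : Group (Plus C) := (HomeoPlus C).toGroup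

/-- The underlying homeomorphism. -/
def hom {C : Set ℂ} (h : Plus C) : S C ≃ₜ S C := h.1

/-- The subgroup `Homeo₀(ℝ² - C)` of `Homeo⁺(ℝ² - C)` formed by the homeomorphisms isotopic to
the identity. -/
def Homeo0 (C : Set ℂ) : Subgroup (Plus C) where
  carrier := {h | IsotopicToId (hom h)}
  one_mem' := iso_one
  mul_mem' := iso_mul
  inv_mem' := iso_inv

instance Homeo0_normal (C : Set ℂ) : (Homeo0 C).Normal :=
  ⟨fun _ hf g => iso_conj hf (hom g)⟩

/-- The mapping class group `Map(ℝ² - C) = Homeo⁺(ℝ² - C)/Homeo₀(ℝ² - C)`. -/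
def MCG (C : Set ℂ) : Type := Plus C ⧸ Homeo0 C

noncomputable instance groupMCG (C : Set ℂ) : Group (MCG C) := QuotientGroup.Quotient.group (Homeo0 C)

/-- the planar copy of a subset of the line -/
def planeSet (A : Set ℝ) : Set ℂ := {z | z.im = 0 ∧ z.re ∈ A}

/-- suspension of a homeomorphism of the line -/
noncomputable def susp (f : ℝ ≃ₜ ℝ) : ℂ ≃ₜ ℂ where
  toFun z := ⟨f z.re, z.im⟩
  invFun z := ⟨f.symm z.re, z.im⟩
  left_inv z := by simp
  right_inv z := by simp
  continuous_toFun := by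
    have : (fun z : ℂ => (⟨f z.re, z.im⟩ : ℂ)) = fun z : ℂ => ((f z.re : ℝ) : ℂ) + (z.im : ℂ) * Complex.I := by
      ext z; apply Complex.ext <;> simp
    rw [this]; fun_prop
  continuous_invFun := by
    have : (fun z : ℂ => (⟨f.symm z.re, z.im⟩ : ℂ)) = fun z : ℂ => ((f.symm z.re : ℝ) : ℂ) + (z.im : ℂ) * Complex.I := by
      ext z; apply Complex.ext <;> simp
    rw [this]; fun_prop

/-- the induced homeomorphism of the complement -/
noncomputable def suspS (A : Set ℝ) (f : ℝ ≃ₜ ℝ) (hf : ∀ x, f x ∈ A ↔ x ∈ A) : S (planeSet A) ≃ₜ S (planeSet A) :=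
  (susp f).subtype (fun z => by
    show ¬ (z.im = 0 ∧ z.re ∈ A) ↔ ¬ (z.im = 0 ∧ f z.re ∈ A)
    rw [hf])

theorem suspS_re (A : Set ℝ) (f : ℝ ≃ₜ ℝ) (hf : ∀ x, f x ∈ A ↔ x ∈ A) (p : S (planeSet A)) :
    (pt (suspS A f hf p)).re = f (pt p).re := rfl
theorem suspS_im (A : Set ℝ) (f : ℝ ≃ₜ ℝ) (hf : ∀ x, f x ∈ A ↔ x ∈ A) (p : S (planeSet A)) :
    (pt (suspS A f hf p)).im = (pt p).im := rfl

theorem suspS_op (A : Set ℝ) (f : ℝ ≃ₜ ℝ) (hf : ∀ x, f x ∈ A ↔ x ∈ A) (hmono : StrictMono f) :
    OrientationPreserving (suspS A f hf) := by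
  intro p
  refine ⟨univ, univ_mem, fun γ hγ hper hmem k => ?_⟩
  -- the quotient of the two loops
  set w : ℝ → ℂ := fun t => (pt (suspS A f hf (γ t)) - pt (suspS A f hf p)) / (pt (γ t) - pt p) with hw
  have hne : ∀ t, pt (γ t) - pt p ≠ 0 := by
    intro t h
    exact (hmem t).2 (Subtype.ext (sub_eq_zero.mp h))
  have hcγ : Continuous fun t => pt (γ t) := continuous_pt.comp hγ
  have hcs : Continuous fun t => pt (suspS A f hf (γ t)) :=
    continuous_pt.comp ((suspS A f hf).continuous.comp hγ)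
  have hwc : Continuous w := by
    refine Continuous.div (hcs.sub continuous_const) (hcγ.sub continuous_const) hne
  have hwre : ∀ t, 0 < (w t).re := by
    intro t
    have h1 : (w t).re = ((f (pt (γ t)).re - f (pt p).re) * ((pt (γ t)).re - (pt p).re) +
        ((pt (γ t)).im - (pt p).im) * ((pt (γ t)).im - (pt p).im)) /
        Complex.normSq (pt (γ t) - pt p) := by
      simp only [hw]
      rw [Complex.div_re]
      simp only [Complex.sub_re, Complex.sub_im, suspS_re, suspS_im]
      ring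
    rw [h1]
    apply div_pos _ (Complex.normSq_pos.mpr (hne t))
    rcases lt_trichotomy (pt (γ t)).re (pt p).re with h | h | h
    · have := hmono h
      have h2 : 0 < (f (pt (γ t)).re - f (pt p).re) * ((pt (γ t)).re - (pt p).re) :=
        mul_pos_of_neg_of_neg (by linarith) (by linarith)
      nlinarith [mul_self_nonneg ((pt (γ t)).im - (pt p).im)]
    · rw [h]
      have h2 : (pt (γ t)).im - (pt p).im ≠ 0 := by
        intro h3
        apply hne t
        apply Complex.ext
        · simp [h]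
        · simpa using h3
      have := mul_self_pos.mpr h2
      simp
      nlinarith
    · have := hmono h
      have h2 : 0 < (f (pt (γ t)).re - f (pt p).re) * ((pt (γ t)).re - (pt p).re) :=
        mul_pos (by linarith) (by linarith)
      nlinarith [mul_self_nonneg ((pt (γ t)).im - (pt p).im)]
  have hlog : Continuous fun t => Complex.log (w t) := by
    refine hwc.clog fun t => ?_
    exact Or.inl (hwre t)
  have hw0 : ∀ t, w t ≠ 0 := by
    intro t h
    have := hwre t
    rw [h] at this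
    simp at this
  have hwper : ∀ t, w (t + 1) = w t := by
    intro t
    simp only [hw, hper t]
  have hmul : ∀ t, (pt (γ t) - pt p) * w t = pt (suspS A f hf (γ t)) - pt (suspS A f hf p) := by
    intro t
    simp only [hw]
    rw [mul_div_cancel₀ _ (hne t)]
  constructor
  · rintro ⟨θ, hθ, h1, h2⟩
    refine ⟨fun t => θ t + Complex.log (w t), hθ.add hlog, fun t => ?_, fun t => ?_⟩
    · rw [Complex.exp_add, h1, Complex.exp_log (hw0 t), hmul]
    · simp only [h2, hwper]; ring
  · rintro ⟨θ, hθ, h1, h2⟩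
    refine ⟨fun t => θ t - Complex.log (w t), hθ.sub hlog, fun t => ?_, fun t => ?_⟩
    · rw [Complex.exp_sub, h1, Complex.exp_log (hw0 t), ← hmul, mul_div_assoc, div_self (hw0 t), mul_one]
    · simp only [h2, hwper]; ring


open scoped ComplexConjugate in
theorem isotopic_aux (A : Set ℝ) (f : ℝ ≃ₜ ℝ) (hf : ∀ x, f x ∈ A ↔ x ∈ A)
    (h : IsotopicToId (suspS A f hf)) {a b c : ℝ} (hac : a < c) (hcb : c < b)
    (ha : a ∉ A) (hb : b ∉ A) (hc : c ∈ A) : a ≤ f c ∧ f c ≤ b := by
  by_contra hcon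
  obtain ⟨Hh, g1, g2, g3, g4⟩ := h
  let Φ : (unitInterval × S (planeSet A)) ≃ₜ (unitInterval × S (planeSet A)) :=
    { toFun := fun x => (x.1, Hh x.1 x.2)
      invFun := fun x => (x.1, (Hh x.1).symm x.2)
      left_inv := fun x => by simp
      right_inv := fun x => by simp
      continuous_toFun := continuous_fst.prodMk g1
      continuous_invFun := continuous_fst.prodMk g2 }
  have h2 : ∀ p, Φ (0, p) = (0, p) := by
    intro p
    show ((0 : unitInterval), Hh 0 p) = (0, p)
    rw [g3]; rfl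
  have h3 : ∀ p, Φ (1, p) = (1, suspS A f hf p) := by
    intro p
    show ((1 : unitInterval), Hh 1 p) = _
    rw [g4]
  set Bx : Set ℂ := Icc a b ×ℂ Icc (-1) 1 with hBx
  set In : Set ℂ := Ioo a b ×ℂ Ioo (-1) 1 with hIn
  have hInB : In ⊆ Bx := by
    intro z hz
    rw [hIn, Complex.mem_reProdIm] at hz
    rw [hBx, Complex.mem_reProdIm]
    exact ⟨Ioo_subset_Icc_self hz.1, Ioo_subset_Icc_self hz.2⟩
  have hBc : IsCompact Bx := isCompact_Icc.reProdIm isCompact_Icc
  have hIo : IsOpen In := isOpen_Ioo.reProdIm isOpen_Ioo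
  have hKc : IsCompact (Bx \ In) := hBc.diff hIo
  have hKC : ∀ z ∈ Bx \ In, z ∉ planeSet A := by
    rintro z ⟨hz1, hz2⟩ ⟨hz3, hz4⟩
    rw [hBx, Complex.mem_reProdIm] at hz1
    rw [hIn, Complex.mem_reProdIm] at hz2
    apply hz2
    refine ⟨⟨lt_of_le_of_ne hz1.1.1 ?_, lt_of_le_of_ne hz1.1.2 ?_⟩, ?_⟩
    · intro h; rw [← h] at hz4; exact ha hz4
    · intro h; rw [h] at hz4; exact hb hz4
    · rw [hz3]; norm_num
  set K : Set (S (planeSet A)) := pt ⁻¹' (Bx \ In) with hK
  have hKcomp : IsCompact K := by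
    rw [isEmbedding_pt.isCompact_iff, hK]
    convert hKc using 1
    ext z
    constructor
    · rintro ⟨y, hy, rfl⟩; exact hy
    · intro h; exact ⟨⟨z, hKC z h⟩, h, rfl⟩
  have hK2 : IsCompact ((pt : S (planeSet A) → ℂ) ''
      ((fun x : unitInterval × S (planeSet A) => (Φ.symm x).2) '' (univ ×ˢ K))) :=
    (((isCompact_univ.prod hKcomp).image (continuous_snd.comp Φ.symm.continuous)).image
      continuous_pt)
  -- points converging to `c`
  have hx : ∀ n : ℕ, (⟨c, 1 / ((n : ℝ) + 2)⟩ : ℂ) ∈ (pt : S (planeSet A) → ℂ) ''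
      ((fun x : unitInterval × S (planeSet A) => (Φ.symm x).2) '' (univ ×ˢ K)) := by
    intro n
    have hpos : (0 : ℝ) < 1 / ((n : ℝ) + 2) := by positivity
    have hlt : 1 / ((n : ℝ) + 2) < 1 := by
      rw [div_lt_one (by positivity)]
      have : (0 : ℝ) ≤ n := by positivity
      linarith
    set x : S (planeSet A) := ⟨⟨c, 1 / ((n : ℝ) + 2)⟩, fun h => by
      have := h.1
      simp only at this
      linarith⟩ with hxdef
    set path : unitInterval → ℂ := fun t => pt (Φ (t, x)).2 with hpath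
    have hpc : Continuous path := by
      have : Continuous fun t : unitInterval => Φ (t, x) := Φ.continuous.comp (by fun_prop)
      exact continuous_pt.comp (continuous_snd.comp this)
    have hex : ∃ t, path t ∈ Bx \ In := by
      by_contra hno
      push Not at hno
      have hcov : (univ : Set unitInterval) ⊆ path ⁻¹' In ∪ path ⁻¹' Bxᶜ := by
        intro t _
        by_cases ht : path t ∈ In
        · exact Or.inl ht
        · right
          intro ht2
          exact hno t ⟨ht2, ht⟩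
      have hp0 : path 0 = ⟨c, 1 / ((n : ℝ) + 2)⟩ := by
        rw [hpath]; simp only; rw [h2]; rfl
      have hp1 : (path 1).re = f c := by
        rw [hpath]; simp only; rw [h3]; rfl
      obtain ⟨t, _, ht1, ht2⟩ := isPreconnected_univ (α := unitInterval) (path ⁻¹' In) (path ⁻¹' Bxᶜ)
        (hIo.preimage hpc) (hBc.isClosed.isOpen_compl.preimage hpc) hcov
        ⟨0, mem_univ _, by
          show path 0 ∈ In
          rw [hp0, hIn, Complex.mem_reProdIm]
          exact ⟨⟨hac, hcb⟩, ⟨by simp only; linarith, hlt⟩⟩⟩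
        ⟨1, mem_univ _, by
          show path 1 ∉ Bx
          intro hmem
          rw [hBx, Complex.mem_reProdIm, hp1] at hmem
          exact hcon hmem.1⟩
      exact ht2 (hInB ht1)
    obtain ⟨t, ht⟩ := hex
    refine ⟨x, ⟨Φ (t, x), ⟨mem_univ _, ht⟩, ?_⟩, rfl⟩
    simp only [Homeomorph.symm_apply_apply]
  have hlim : Tendsto (fun n : ℕ => (⟨c, 1 / ((n : ℝ) + 2)⟩ : ℂ)) atTop (𝓝 (⟨c, 0⟩ : ℂ)) := by
    have e1 : ∀ y : ℝ, (⟨c, y⟩ : ℂ) = (c : ℂ) + (y : ℂ) * Complex.I := by
      intro y; apply Complex.ext <;> simp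
    simp only [e1]
    have e2 : Tendsto (fun n : ℕ => 1 / ((n : ℝ) + 2)) atTop (𝓝 0) := by
      have := tendsto_one_div_add_atTop_nhds_zero_nat (𝕜 := ℝ)
      have h4 := (tendsto_add_atTop_iff_nat 1).mpr this
      refine h4.congr fun n => ?_
      push_cast
      ring
    have e3 : Tendsto (fun n : ℕ => (((1 / ((n : ℝ) + 2) : ℝ)) : ℂ)) atTop (𝓝 ((0 : ℝ) : ℂ)) :=
      (Complex.continuous_ofReal.tendsto 0).comp e2
    exact tendsto_const_nhds.add (e3.mul_const _)
  have hmem := hK2.isClosed.mem_of_tendsto hlim (Eventually.of_forall hx)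
  obtain ⟨y, _, hy⟩ := hmem
  apply y.2
  have hy' : y.1 = (⟨c, 0⟩ : ℂ) := hy
  rw [hy']
  exact ⟨rfl, hc⟩

theorem isotopic_fix (A : Set ℝ) (f : ℝ ≃ₜ ℝ) (hf : ∀ x, f x ∈ A ↔ x ∈ A) {M : ℝ}
    (hA : ∀ x ∈ A, 0 ≤ x ∧ x ≤ M)
    (hgap : ∀ u ∈ A, ∀ v ∈ A, u < v → ∃ x, u < x ∧ x < v ∧ x ∉ A)
    (h : IsotopicToId (suspS A f hf)) {c : ℝ} (hc : c ∈ A) : f c = c := by
  have hfc : f c ∈ A := (hf c).mpr hc
  have hc1 := hA c hc
  rcases lt_trichotomy (f c) c with h1 | h1 | h1
  · obtain ⟨a, ha1, ha2, ha3⟩ := hgap _ hfc _ hc h1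
    have := isotopic_aux A f hf h ha2 (show c < M + 1 by linarith) ha3
      (fun hm => by have := (hA _ hm).2; linarith) hc
    linarith [this.1]
  · exact h1
  · obtain ⟨b, hb1, hb2, hb3⟩ := hgap _ hc _ hfc h1
    have := isotopic_aux A f hf h (show (-1 : ℝ) < c by linarith) hb1
      (fun hm => by have := (hA _ hm).1; linarith) hb3 hc
    linarith [this.2]

/-- sanity check: the winding number is unique -/
theorem winding_unique {γ : ℝ → ℂ} {p : ℂ} {k l : ℤ} (h1 : HasWinding γ p k)
    (h2 : HasWinding γ p l) : k = l := by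
  obtain ⟨θ, a1, a2, a3⟩ := h1
  obtain ⟨η, b1, b2, b3⟩ := h2
  have hI : (2 * Real.pi * Complex.I : ℂ) ≠ 0 := Complex.two_pi_I_ne_zero
  have hint : ∀ t, ∃ n : ℤ, (θ t - η t) / (2 * Real.pi * Complex.I) = n := by
    intro t
    have h3 : Complex.exp (θ t - η t) = 1 := by
      rw [Complex.exp_sub, a2, b2, div_self]
      rw [← b2]; exact Complex.exp_ne_zero _
    obtain ⟨n, hn⟩ := Complex.exp_eq_one_iff.mp h3
    exact ⟨n, by rw [hn]; field_simp⟩
  set q : ℝ → ℝ := fun t => ((θ t - η t) / (2 * Real.pi * Complex.I)).re with hq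
  have hqc : Continuous q := Complex.continuous_re.comp ((a1.sub b1).div_const _)
  have hqi : ∀ t, ∃ n : ℤ, q t = n := by
    intro t
    obtain ⟨n, hn⟩ := hint t
    exact ⟨n, by simp only [hq]; rw [hn]; simp⟩
  have hord := (isPreconnected_range hqc).ordConnected
  have hconst : ∀ s t, q s ≤ q t := by
    intro s t
    by_contra hlt
    push Not at hlt
    obtain ⟨m, hm⟩ := hqi t
    obtain ⟨n, hn⟩ := hqi s
    rw [hm, hn] at hlt
    have hmn : (m : ℝ) + 1 ≤ n := by exact_mod_cast hlt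
    obtain ⟨u, hu⟩ := hord.out ⟨t, hm⟩ ⟨s, hn⟩
      (show (m : ℝ) + 1 / 2 ∈ Icc (m : ℝ) n from ⟨by linarith, by linarith⟩)
    obtain ⟨d, hd⟩ := hqi u
    rw [hd] at hu
    have h4 : (2 * d : ℤ) = 2 * m + 1 := by
      have : (2 * d : ℝ) = 2 * m + 1 := by linarith
      exact_mod_cast this
    omega
  have h5 : q 1 = q 0 := le_antisymm (hconst 1 0) (hconst 0 1)
  have h6 : q 1 = q 0 + (k - l) := by
    have e1 := a3 0
    have e2 := b3 0
    rw [zero_add] at e1 e2
    simp only [hq]
    rw [e1, e2]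
    have : (θ 0 + 2 * Real.pi * Complex.I * k - (η 0 + 2 * Real.pi * Complex.I * l)) /
        (2 * Real.pi * Complex.I) = (θ 0 - η 0) / (2 * Real.pi * Complex.I) + ((k - l : ℝ) : ℂ) := by
      push_cast
      field_simp
      ring
    rw [this, Complex.add_re, Complex.ofReal_re]
  have h7 : (k : ℝ) = l := by linarith
  exact_mod_cast h7

/-- sanity check: circles have winding number one -/
theorem winding_circle (p : ℂ) {r : ℝ} (hr : 0 < r) :
    HasWinding (fun t => p + r * Complex.exp (2 * Real.pi * Complex.I * t)) p 1 := by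
  refine ⟨fun t => Real.log r + 2 * Real.pi * Complex.I * t, by fun_prop, fun t => ?_, fun t => ?_⟩
  · rw [Complex.exp_add, ← Complex.ofReal_exp, Real.exp_log hr]; ring
  · push_cast; ring

/-- complex conjugation on the complement of a planar set contained in the real line -/
noncomputable def conjS (A : Set ℝ) : S (planeSet A) ≃ₜ S (planeSet A) :=
  Complex.conjCLE.toHomeomorph.subtype (fun z => by
    show ¬ (z.im = 0 ∧ z.re ∈ A) ↔ ¬ ((starRingEnd ℂ z).im = 0 ∧ (starRingEnd ℂ z).re ∈ A)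
    simp)

/-- sanity check: complex conjugation does not preserve orientation -/
theorem conj_not_op (A : Set ℝ) : ¬ OrientationPreserving (conjS A) := by
  intro h
  have hI : Complex.I ∉ planeSet A := fun h => by simpa using h.1
  obtain ⟨U, hU, h1⟩ := h (mkS Complex.I hI)
  rw [isEmbedding_pt.nhds_eq_comap, mem_comap] at hU
  obtain ⟨V, hV, hVU⟩ := hU
  obtain ⟨ε, hε, hball⟩ := Metric.mem_nhds_iff.mp hV
  set r : ℝ := min (ε / 2) (1 / 2) with hr
  have hr0 : 0 < r := lt_min (by linarith) (by norm_num)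
  have hre : r < ε := lt_of_le_of_lt (min_le_left _ _) (by linarith)
  have hr1 : r < 1 := lt_of_le_of_lt (min_le_right _ _) (by norm_num)
  have hnorm : ∀ t : ℝ, ‖(r : ℂ) * Complex.exp (2 * Real.pi * Complex.I * t)‖ = r := by
    intro t
    rw [norm_mul, Complex.norm_real, Real.norm_eq_abs, abs_of_pos hr0]
    have : (2 * Real.pi * Complex.I * t : ℂ) = ((2 * Real.pi * t : ℝ) : ℂ) * Complex.I := by
      push_cast; ring
    rw [this, Complex.norm_exp_ofReal_mul_I, mul_one]
  have hmem : ∀ t : ℝ, Complex.I + r * Complex.exp (2 * Real.pi * Complex.I * t) ∉ planeSet A := by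
    rintro t ⟨h2, _⟩
    have h3 := Complex.abs_im_le_norm ((r : ℂ) * Complex.exp (2 * Real.pi * Complex.I * t))
    rw [hnorm] at h3
    rw [Complex.add_im, Complex.I_im] at h2
    have := neg_le_of_abs_le h3
    linarith
  have h2 := h1 (fun t => mkS _ (hmem t)) (by
      rw [isEmbedding_pt.continuous_iff]
      show Continuous fun t : ℝ => Complex.I + r * Complex.exp (2 * Real.pi * Complex.I * t)
      fun_prop) (fun t => by
      apply isEmbedding_pt.injective
      show Complex.I + r * Complex.exp (2 * Real.pi * Complex.I * ((t + 1 : ℝ) : ℂ)) = _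
      have : (2 * Real.pi * Complex.I * ((t + 1 : ℝ) : ℂ) : ℂ) =
        2 * Real.pi * Complex.I * t + 2 * Real.pi * Complex.I := by push_cast; ring
      rw [this, Complex.exp_add, Complex.exp_two_pi_mul_I, mul_one]
      rfl) (fun t => by
      constructor
      · apply hVU
        apply hball
        show Complex.I + r * Complex.exp (2 * Real.pi * Complex.I * t) ∈ Metric.ball Complex.I ε
        rw [Metric.mem_ball, dist_eq_norm, add_sub_cancel_left, hnorm]
        exact hre
      · intro h3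
        have h4 : Complex.I + r * Complex.exp (2 * Real.pi * Complex.I * t) = Complex.I :=
          congrArg pt h3
        have h5 : (r : ℂ) * Complex.exp (2 * Real.pi * Complex.I * t) = 0 := by
          simpa using h4
        have := hnorm t
        rw [h5, norm_zero] at this
        linarith) 1
  have h3 := h2.mp (winding_circle Complex.I hr0)
  have h4 : HasWinding (fun t : ℝ => starRingEnd ℂ (Complex.I + r *
      Complex.exp (2 * Real.pi * Complex.I * t))) (starRingEnd ℂ Complex.I) (-1) := by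
    obtain ⟨θ, a1, a2, a3⟩ := winding_circle Complex.I hr0
    refine ⟨fun t => starRingEnd ℂ (θ t), Complex.continuous_conj.comp a1, fun t => ?_, fun t => ?_⟩
    · show Complex.exp (starRingEnd ℂ (θ t)) = _
      rw [Complex.exp_conj, a2]
      simp
    · simp only
      rw [a3]
      simp
      exact map_ofNat (starRingEnd ℂ) 2
  have h5 := winding_unique h3 h4
  omega

end Plane


section Assembly

open SemidirectProduct

instance : DenselyOrdered (ℤ ×ₗ ℚ) where
  dense := by
    intro a b hab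
    rw [Prod.Lex.lt_iff] at hab
    rcases hab with h | ⟨h1, h2⟩
    · exact ⟨toLex ((ofLex a).1, (ofLex a).2 + 1), by
        rw [Prod.Lex.lt_iff]; right; simp, by
        rw [Prod.Lex.lt_iff]; left; simpa using h⟩
    · obtain ⟨c, hc1, hc2⟩ := exists_between h2
      exact ⟨toLex ((ofLex a).1, c), by
        rw [Prod.Lex.lt_iff]; right; exact ⟨rfl, hc1⟩, by
        rw [Prod.Lex.lt_iff]; right; exact ⟨h1, hc2⟩⟩

instance : NoMinOrder (ℤ ×ₗ ℚ) where
  exists_lt a := ⟨toLex ((ofLex a).1, (ofLex a).2 - 1), by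
    rw [Prod.Lex.lt_iff]; right; simp⟩

instance : NoMaxOrder (ℤ ×ₗ ℚ) where
  exists_gt a := ⟨toLex ((ofLex a).1, (ofLex a).2 + 1), by
    rw [Prod.Lex.lt_iff]; right; simp⟩

instance : Encodable (ℤ ×ₗ ℚ) := inferInstanceAs (Encodable (ℤ × ℚ))

/-- blockwise action -/
def blockIso (f : ℤ → (ℚ ≃o ℚ)) : (ℤ ×ₗ ℚ) ≃o (ℤ ×ₗ ℚ) where
  toFun p := toLex ((ofLex p).1, f (ofLex p).1 (ofLex p).2)
  invFun p := toLex ((ofLex p).1, (f (ofLex p).1).symm (ofLex p).2)
  left_inv p := by simp
  right_inv p := by simp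
  map_rel_iff' := by
    intro a b
    rw [Prod.Lex.le_iff, Prod.Lex.le_iff]
    simp only [Equiv.coe_fn_mk, ofLex_toLex]
    refine or_congr Iff.rfl (and_congr_right fun h => ?_)
    rw [h]
    exact (f _).le_iff_le

/-- shift of the blocks -/
def shiftIso (k : ℤ) : (ℤ ×ₗ ℚ) ≃o (ℤ ×ₗ ℚ) where
  toFun p := toLex ((ofLex p).1 + k, (ofLex p).2)
  invFun p := toLex ((ofLex p).1 - k, (ofLex p).2)
  left_inv p := by simp
  right_inv p := by simp
  map_rel_iff' := by
    intro a b
    rw [Prod.Lex.le_iff, Prod.Lex.le_iff]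
    simp

def blockHom : (ℤ → (ℚ ≃o ℚ)) →* ((ℤ ×ₗ ℚ) ≃o (ℤ ×ₗ ℚ)) where
  toFun := blockIso
  map_one' := rfl
  map_mul' _ _ := rfl

def shiftHom : Multiplicative ℤ →* ((ℤ ×ₗ ℚ) ≃o (ℤ ×ₗ ℚ)) where
  toFun k := shiftIso k.toAdd
  map_one' := by
    ext p
    apply ofLex.injective
    show ((ofLex p).1 + 0, (ofLex p).2) = ofLex p
    rw [add_zero]
  map_mul' k l := by
    ext p
    apply ofLex.injective
    show ((ofLex p).1 + (k * l).toAdd, (ofLex p).2) = ((ofLex p).1 + l.toAdd + k.toAdd, (ofLex p).2)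
    rw [toAdd_mul]
    congr 1
    ring

/-- the wreath product acts on `ℤ ×ₗ ℚ` -/
def rho : W (ℚ ≃o ℚ) →* ((ℤ ×ₗ ℚ) ≃o (ℤ ×ₗ ℚ)) :=
  SemidirectProduct.lift blockHom shiftHom (by
    intro s
    ext f p
    apply ofLex.injective
    show ((ofLex p).1, f ((ofLex p).1 - s.toAdd) (ofLex p).2) =
      ((ofLex p).1 - s.toAdd + s.toAdd, f ((ofLex p).1 - s.toAdd) (ofLex p).2)
    rw [sub_add_cancel])

/-- the weights -/
noncomputable def wt : (ℤ ×ₗ ℚ) → ℝ := (posSumOfEncodable one_pos (ℤ ×ₗ ℚ)).1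

theorem wt_pos (y : ℤ ×ₗ ℚ) : 0 < wt y := (posSumOfEncodable one_pos (ℤ ×ₗ ℚ)).2.1 y

theorem wt_summable : Summable wt := by
  obtain ⟨c, hc, _⟩ := (posSumOfEncodable one_pos (ℤ ×ₗ ℚ)).2.2
  exact hc.summable

/-- the homeomorphism of the line -/
noncomputable def Fh (g : (ℤ ×ₗ ℚ) ≃o (ℤ ×ₗ ℚ)) : ℝ ≃ₜ ℝ where
  toFun := F wt g
  invFun := F wt g⁻¹
  left_inv x := F_inv_left wt_pos wt_summable g x
  right_inv x := F_inv_right wt_pos wt_summable g x
  continuous_toFun := F_cont wt_pos wt_summable g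
  continuous_invFun := F_cont wt_pos wt_summable g⁻¹

/-- the Cantor set in the plane -/
noncomputable def Cset : Set ℂ := planeSet (C0 wt)

theorem Fh_iff (g : (ℤ ×ₗ ℚ) ≃o (ℤ ×ₗ ℚ)) (x : ℝ) : Fh g x ∈ C0 wt ↔ x ∈ C0 wt :=
  F_mem_C0_iff wt_pos wt_summable g

theorem Fh_strictMono (g : (ℤ ×ₗ ℚ) ≃o (ℤ ×ₗ ℚ)) : StrictMono (Fh g) :=
  (F_mono wt_pos wt_summable g).strictMono_of_injective (Fh g).injective

/-- the action on the complement of the Cantor set -/
noncomputable def actS : ((ℤ ×ₗ ℚ) ≃o (ℤ ×ₗ ℚ)) →* Plus Cset where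
  toFun g := ⟨suspS (C0 wt) (Fh g) (Fh_iff g), suspS_op _ _ _ (Fh_strictMono g)⟩
  map_one' := by
    apply Subtype.ext
    ext p
    apply isEmbedding_pt.injective
    apply Complex.ext
    · exact F_one wt_pos wt_summable _
    · rfl
  map_mul' g h := by
    apply Subtype.ext
    ext p
    apply isEmbedding_pt.injective
    apply Complex.ext
    · exact F_mul wt_pos wt_summable g h _
    · rfl

noncomputable def toMCG : ((ℤ ×ₗ ℚ) ≃o (ℤ ×ₗ ℚ)) →* MCG Cset :=
  (QuotientGroup.mk' (Homeo0 Cset)).comp actS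

theorem toMCG_injective : Function.Injective toMCG := by
  rw [injective_iff_map_eq_one]
  intro g hg
  have h1 : actS g ∈ Homeo0 Cset := by
    have h2 : QuotientGroup.mk' (Homeo0 Cset) (actS g) = 1 := hg
    rw [QuotientGroup.mk'_apply, QuotientGroup.eq_one_iff] at h2
    exact h2
  apply F_faithful wt_pos wt_summable g
  intro x hx
  exact isotopic_fix (C0 wt) (Fh g) (Fh_iff g) (M := ∑' z, wt z) (fun x hx => ⟨hx.1, hx.2.1⟩)
    (fun u hu v hv huv => C0_no_interval wt_pos wt_summable huv hu hv) h1 hx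

/-- A Cantor set in the plane: a nonempty compact perfect totally disconnected set. -/
def IsCantorSet (C : Set ℂ) : Prop :=
  C.Nonempty ∧ IsCompact C ∧ Perfect C ∧ IsTotallyDisconnected C

theorem Cset_isCantor : IsCantorSet Cset := by
  have hclosed : IsClosed Cset := by
    have : Cset = {z : ℂ | z.im = 0} ∩ Complex.re ⁻¹' (C0 wt) := rfl
    rw [this]
    exact (isClosed_eq Complex.continuous_im continuous_const).inter
      ((C0_closed wt_pos wt_summable).preimage Complex.continuous_re)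
  have hM : 0 ≤ ∑' z, wt z := tsum_nonneg fun z => (wt_pos z).le
  refine ⟨⟨0, rfl, ?_⟩, ?_, ⟨hclosed, ?_⟩, ?_⟩
  · refine ⟨le_rfl, hM, ?_⟩
    rintro y ⟨h1, h2⟩
    have := L_nonneg wt_pos wt_summable y
    simp at h1
    linarith
  · have hsub : Cset ⊆ Icc 0 (∑' z, wt z) ×ℂ Icc (-1) 1 := by
      rintro z ⟨h1, h2⟩
      rw [Complex.mem_reProdIm]
      refine ⟨⟨h2.1, h2.2.1⟩, ?_⟩
      rw [h1]; norm_num
    exact (isCompact_Icc.reProdIm isCompact_Icc).of_isClosed_subset hclosed hsub
  · rw [preperfect_iff_nhds]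
    rintro z ⟨h1, h2⟩ U hU
    obtain ⟨ε, hε, hball⟩ := Metric.mem_nhds_iff.mp hU
    obtain ⟨x', hx', hne, hd⟩ := C0_perfect wt_pos wt_summable h2 hε
    refine ⟨(x' : ℂ), ⟨hball ?_, ⟨by simp, by simpa using hx'⟩⟩, ?_⟩
    · rw [Metric.mem_ball, dist_eq_norm]
      have : (x' : ℂ) - z = ((x' - z.re : ℝ) : ℂ) := by
        apply Complex.ext
        · simp
        · simp [h1]
      rw [this, Complex.norm_real]
      exact hd
    · intro h
      apply hne
      rw [← h]; simp
  · intro t ht hpre u hu v hv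
    have himg : IsPreconnected (Complex.re '' t) := hpre.image _ Complex.continuous_re.continuousOn
    have hord := himg.ordConnected
    have hre : u.re = v.re := by
      by_contra hne
      rcases lt_or_gt_of_ne hne with h | h
      · obtain ⟨x, h1, h2, h3⟩ := C0_no_interval wt_pos wt_summable h (ht hu).2 (ht hv).2
        obtain ⟨w, hw, rfl⟩ := hord.out ⟨u, hu, rfl⟩ ⟨v, hv, rfl⟩ ⟨h1.le, h2.le⟩
        exact h3 (ht hw).2
      · obtain ⟨x, h1, h2, h3⟩ := C0_no_interval wt_pos wt_summable h (ht hv).2 (ht hu).2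
        obtain ⟨w, hw, rfl⟩ := hord.out ⟨v, hv, rfl⟩ ⟨u, hu, rfl⟩ ⟨h1.le, h2.le⟩
        exact h3 (ht hw).2
    apply Complex.ext hre
    rw [(ht hu).1, (ht hv).1]

/-- the free group acting on block `0` -/
noncomputable def freeW : FreeGroup Bool →* W (ℚ ≃o ℚ) :=
  SemidirectProduct.inl.comp ((MonoidHom.mulSingle (fun _ : ℤ => (ℚ ≃o ℚ)) 0).comp freeIn)

theorem rho_freeW_injective : Function.Injective (rho.comp freeW) := by
  rw [injective_iff_map_eq_one]
  intro w hw
  apply (injective_iff_map_eq_one freeIn).mp freeIn_injective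
  ext q
  have h1 : (rho (freeW w)) (toLex (0, q)) = toLex (0, q) := by
    have : rho (freeW w) = 1 := hw
    rw [this]; rfl
  have h2 : rho (freeW w) = blockHom (Pi.mulSingle 0 (freeIn w)) := by
    show SemidirectProduct.lift blockHom shiftHom _ (SemidirectProduct.inl _) = _
    rw [SemidirectProduct.lift_inl]
    rfl
  rw [h2] at h1
  have h3 := congrArg (fun p : ℤ ×ₗ ℚ => (ofLex p).2) h1
  have h4 : (Pi.mulSingle (0 : ℤ) (freeIn w) : ℤ → (ℚ ≃o ℚ)) 0 q = q := h3
  rw [Pi.mulSingle_eq_same] at h4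
  exact h4

/-- There are a Cantor set `C` in the plane and a subgroup `H` of `Map(ℝ² - C)` which is not
amenable and for which `Q(H)/Hom(H, ℝ)` is finite-dimensional (in fact zero). -/
theorem result : ∃ C : Set ℂ, IsCantorSet C ∧ ∃ H : Subgroup (MCG C),
    ¬ IsAmenable H ∧ FiniteDimensional ℝ (Qtilde H) ∧ Module.finrank ℝ (Qtilde H) = 0 := by
  have hS : Subsingleton (Qtilde (toMCG.comp rho).range) :=
    finite_Qtilde (toMCG.comp rho).rangeRestrict (MonoidHom.rangeRestrict_surjective _)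
  refine ⟨Cset, Cset_isCantor, (toMCG.comp rho).range, ?_, inferInstance, ?_⟩
  · refine not_amenable_of_free ((toMCG.comp rho).rangeRestrict.comp freeW) ?_
    intro a b hab
    apply rho_freeW_injective
    apply toMCG_injective
    have := congrArg (fun x : (toMCG.comp rho).range => (x : MCG Cset)) hab
    exact this
  · exact Module.finrank_zero_of_subsingleton

end Assembly

end Pool.Agent.Results.MP_ac6992_gt.Disproof
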